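import Mathlib
import Pool.Agent.W70.HRC.Stm

/-!
# The window lemma
-/

set_option autoImplicit false
set_option maxHeartbeats 400000

namespace Pool.Agent.W978.HRC

/-- the last `m` elements of `P` -/
lemma top_exists (P : Finset ℕ) (m : ℕ) (hm : m ≤ P.card) :
    ∃ F ⊆ P, F.card = m ∧ ∀ x ∈ P, x ∉ F → ∀ y ∈ F, x < y := by
  classical
  induction m with
  | zero => exact ⟨∅, Finset.empty_subset _, rfl, fun x _ _ y hy => absurd hy (Finset.notMem_empty y)⟩
  | succ m ih =>
    obtain ⟨F, hF, hc, hlt⟩ := ih (by omega)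
    have hne : (P \ F).Nonempty := by
      rw [← Finset.card_pos, Finset.card_sdiff_of_subset hF]
      omega
    have hmem := Finset.mem_sdiff.1 ((P \ F).max'_mem hne)
    refine ⟨insert ((P \ F).max' hne) F, ?_, ?_, ?_⟩
    · exact Finset.insert_subset hmem.1 hF
    · rw [Finset.card_insert_of_notMem hmem.2, hc]
    · intro x hx hxF y hy
      rw [Finset.mem_insert, not_or] at hxF
      rcases Finset.mem_insert.1 hy with rfl | hy
      · exact lt_of_le_of_ne ((P \ F).le_max' x (Finset.mem_sdiff.2 ⟨hx, hxF.2⟩)) hxF.1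
      · exact hlt x hx hxF.2 y hy

open Classical in
lemma win_aux (k : ℕ) (f : ℕ → ℕ) (hk : 1 ≤ k) : ∀ (n : ℕ) (P : Finset ℕ), P.card = n →
    k + k * ((P ×ˢ P).filter (fun x => x.1 < x.2 ∧ f x.1 = f x.2)).card < P.card →
    ∃ F ⊆ P, F.card = k + 1 ∧ Set.InjOn f (F : Set ℕ) ∧
      ∀ j ∈ P, (∃ a ∈ F, a ≤ j) → (∃ a ∈ F, j ≤ a) → j ∈ F := by
  intro n
  induction n using Nat.strong_induction_on with
  | _ n ih =>
    intro P hn hP
    have hk1 : k + 1 ≤ P.card := by
      have := Nat.zero_le (k * ((P ×ˢ P).filter (fun x => x.1 < x.2 ∧ f x.1 = f x.2)).card)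
      omega
    obtain ⟨F, hF, hc, hlt⟩ := top_exists P (k + 1) hk1
    by_cases hinj : Set.InjOn f (F : Set ℕ)
    · refine ⟨F, hF, hc, hinj, fun j hj ⟨a, ha, haj⟩ _ => ?_⟩
      by_contra hjF
      have := hlt j hj hjF a ha
      omega
    · -- a repeated class in `F`
      obtain ⟨x, hx, y, hy, hxy, hfxy⟩ : ∃ x ∈ F, ∃ y ∈ F, x < y ∧ f x = f y := by
        unfold Set.InjOn at hinj
        push Not at hinj
        obtain ⟨x, hx, y, hy, h1, h2⟩ := hinj
        rcases Nat.lt_or_gt_of_ne h2 with h3 | h3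
        · exact ⟨x, hx, y, hy, h3, h1⟩
        · exact ⟨y, hy, x, hx, h3, h1.symm⟩
      set P' := P.filter (fun z => z < y) with hP'
      have hsub : P' ⊆ P := Finset.filter_subset _ _
      have hyP : y ∈ P := hF hy
      have hxP : x ∈ P := hF hx
      have hyP' : y ∉ P' := by rw [hP', Finset.mem_filter]; omega
      have hlt' : P'.card < P.card :=
        Finset.card_lt_card ⟨hsub, fun h => hyP' (h hyP)⟩
      have hge : P.card ≤ P'.card + k := by
        have h1 : P \ P' ⊆ F.erase x := by
          intro z hz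
          rw [Finset.mem_sdiff, hP', Finset.mem_filter, not_and] at hz
          have h2 := hz.2 hz.1
          rw [Finset.mem_erase]
          refine ⟨by omega, ?_⟩
          by_contra hzF
          exact h2 (hlt z hz.1 hzF y hy)
        have h2 := Finset.card_le_card h1
        rw [Finset.card_erase_of_mem hx, hc, Finset.card_sdiff_of_subset hsub] at h2
        omega
      have hE : ((P' ×ˢ P').filter (fun x => x.1 < x.2 ∧ f x.1 = f x.2)).card + 1 ≤
          ((P ×ˢ P).filter (fun x => x.1 < x.2 ∧ f x.1 = f x.2)).card := by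
        apply Nat.succ_le_of_lt
        apply Finset.card_lt_card
        refine ⟨?_, fun h => ?_⟩
        · intro p hp
          rw [Finset.mem_filter, Finset.mem_product] at hp ⊢
          exact ⟨⟨hsub hp.1.1, hsub hp.1.2⟩, hp.2⟩
        · have h1 : (x, y) ∈ (P ×ˢ P).filter (fun x => x.1 < x.2 ∧ f x.1 = f x.2) := by
            rw [Finset.mem_filter, Finset.mem_product]
            exact ⟨⟨hxP, hyP⟩, hxy, hfxy⟩
          have h2 := h h1
          rw [Finset.mem_filter, Finset.mem_product] at h2
          exact hyP' h2.1.2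
      have hcond : k + k * ((P' ×ˢ P').filter (fun x => x.1 < x.2 ∧ f x.1 = f x.2)).card <
          P'.card := by
        have h1 := Nat.mul_le_mul_left k hE
        rw [Nat.mul_add, Nat.mul_one] at h1
        omega
      obtain ⟨F', hF', hc', hinj', hw'⟩ := ih P'.card (by omega) P' rfl hcond
      refine ⟨F', hF'.trans hsub, hc', hinj', fun j hj h1 h2 => ?_⟩
      refine hw' j ?_ h1 h2
      obtain ⟨a, ha, hja⟩ := h2
      have h3 := (Finset.mem_filter.1 (hF' ha)).2
      rw [hP', Finset.mem_filter]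
      exact ⟨hj, by omega⟩

theorem win : Pool.Agent.W70.HRC.S_WIN := by
  intro k P f hk hP
  exact win_aux k f hk P.card P rfl hP

end Pool.Agent.W978.HRC
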